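import Pool.Agent.H.MP_f8f7ac_co.Main

set_option autoImplicit false

namespace Pool.Agent.Results.MP_f8f7ac_co.No
open Pool.Agent.H.MP_f8f7ac_co

/-- combinatorial configuration `(n_3)` with point set `α`, line set `β`, incidence `I` -/
def Config3 {α β : Type} (I : α → β → Prop) : Prop :=
  Finite α ∧ Finite β ∧ Nat.card α = Nat.card β ∧
    (∀ l, {p | I p l}.ncard = 3) ∧ (∀ p, {l | I p l}.ncard = 3) ∧
    ∀ p q, p ≠ q → {l | I p l ∧ I q l}.Subsingleton

/-- automorphism of the incidence structure -/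
def IsAut {α β : Type} (I : α → β → Prop) (σ : α ≃ α) (τ : β ≃ β) : Prop :=
  ∀ p l, I (σ p) (τ l) ↔ I p l

/-- geometric realization in the Euclidean plane `ℂ` -/
def Realizes {α β : Type} (I : α → β → Prop) (P : α → ℂ) (L : β → AffineSubspace ℝ ℂ) : Prop :=
  Function.Injective P ∧ Function.Injective L ∧
    (∀ l, Module.finrank ℝ (L l).direction = 1) ∧ ∀ p l, P p ∈ L l ↔ I p l

/-- `g` maps the set of points onto itself and the set of lines onto itself -/
def IsSym {α β : Type} (P : α → ℂ) (L : β → AffineSubspace ℝ ℂ) (g : ℂ ≃ᵢ ℂ) : Prop :=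
  g '' Set.range P = Set.range P ∧
    (fun s : Set ℂ => g '' s) '' Set.range (fun l => (L l : Set ℂ)) =
      Set.range (fun l => (L l : Set ℂ))

theorem nc {s : Set Z} {n : ℕ} (p : Z → Prop) [DecidablePred p]
    (h : (Finset.univ.filter p).card = n) (hs : s = {x | p x}) : s.ncard = n := by
  rw [← h, ← Set.ncard_coe_finset, hs]
  congr 1
  ext x
  simp

theorem result : ∃ (α β : Type) (I : α → β → Prop), Nonempty α ∧ Config3 I ∧
    (∃ P L, Realizes I P L) ∧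
    (∀ p q, ∃ σ τ, IsAut I σ τ ∧ σ p = q) ∧ (∀ l m, ∃ σ τ, IsAut I σ τ ∧ τ l = m) ∧
    (∀ p l q m, I p l → I q m → ∃ σ τ, IsAut I σ τ ∧ σ p = q ∧ τ l = m) ∧
    ∀ P L, Realizes I P L → ∀ g, IsSym P L g → g = IsometryEquiv.refl ℂ := by
  have fl : ∀ p l q m, Inc p l → Inc q m → ∃ σ τ, IsAut Inc σ τ ∧ σ p = q ∧ τ l = m :=
    fun p l q m a b => by
      obtain ⟨k, d, x, y⟩ := f_tr p l a q m b
      exact ⟨Equiv.ofBijective _ (fP_bij k d), Equiv.ofBijective _ (fL_bij k d), f_aut k d, x, y⟩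
  refine ⟨Z, Z, Inc, inferInstance, ⟨inferInstance, inferInstance, rfl,
    fun l => nc _ (cfg1 l) rfl, fun l => nc _ (cfg2 l) rfl, fun p q h => ?_⟩, ⟨PA, LA, realA⟩,
    fun p q => ?_, fun p q => ?_, fl, ?_⟩
  · intro a ha b hb
    exact Finset.card_le_one.1 (cfg3 p q h) a (by simpa using ha) b (by simpa using hb)
  · obtain ⟨σ, τ, a, b, -⟩ := fl p p q q (.inl rfl) (.inl rfl)
    exact ⟨σ, τ, a, b⟩
  · obtain ⟨σ, τ, a, -, b⟩ := fl p p q q (.inl rfl) (.inl rfl)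
    exact ⟨σ, τ, a, b⟩
  · rintro P L ⟨h1, -, h3, h4⟩ g ⟨a, b⟩
    refine nosym P L h1 h3 h4 g (fun p => ?_) fun l => ?_
    · have : g (P p) ∈ Set.range P := a ▸ Set.mem_image_of_mem g ⟨p, rfl⟩
      exact this
    · have : g '' (L l : Set ℂ) ∈ Set.range (fun l => (L l : Set ℂ)) :=
        b ▸ Set.mem_image_of_mem (fun s : Set ℂ => g '' s) ⟨l, rfl⟩
      exact this

end Pool.Agent.Results.MP_f8f7ac_co.No
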